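import Pool.Agent.Helper27.PHU.Defs

/-!
# MP_8bf717_co, PHU-1: covers and frames under affine maps and reflections
-/

set_option autoImplicit false

open MeasureTheory Set

namespace Pool.Agent.Helper83.PHU

open Pool.Agent.Helper27.PHU Pool.Agent.Helper37.PH Pool.Agent.Helper61.PH

theorem cov_mono {K L : Set (ℝ × ℝ)} {V W : ℝ} (h : Cov K V) (hKL : L ⊆ K) (hVW : V ≤ W) :
    Cov L W := by
  intro ε hε
  obtain ⟨P, hP, hsub, hle⟩ := h ε hε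
  refine ⟨P, hP, hKL.trans hsub, hle.trans ?_⟩
  gcongr

theorem Cov_affE {K : Set (ℝ × ℝ)} {V : ℝ} (L : (ℝ × ℝ) ≃ₗ[ℝ] (ℝ × ℝ)) (c : ℝ × ℝ)
    (h : Cov (affE L c '' K) (|LinearMap.det (L : (ℝ × ℝ) →ₗ[ℝ] (ℝ × ℝ))| * V)) : Cov K V := by
  intro ε hε
  set A := affE L c with hA
  set δ : ℝ := |LinearMap.det (L : (ℝ × ℝ) →ₗ[ℝ] (ℝ × ℝ))| with hδ
  have hδ0 : 0 < δ := by
    rw [hδ, abs_pos]
    exact (LinearEquiv.isUnit_det' L).ne_zero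
  have hδE : ENNReal.ofReal δ ≠ 0 := by
    rw [Ne, ENNReal.ofReal_eq_zero, not_le]; exact hδ0
  obtain ⟨P, hP, hsub, hle⟩ := h (δ * ε) (mul_pos hδ0 hε)
  have hPA : IsPHexagon (A.symm '' P) := pHex_image hP A.symm
  have hsub' : K ⊆ A.symm '' P := by
    intro q hq
    refine ⟨A q, hsub ⟨q, hq, rfl⟩, ?_⟩
    simp
  have hv1 : volume P = ENNReal.ofReal δ * volume (A.symm '' P) := by
    have e : P = A '' (A.symm '' P) := by
      rw [← image_comp]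
      simp
    conv_lhs => rw [e]
    exact volume_affE L c _
  rw [hv1, ENNReal.ofReal_mul hδ0.le, ENNReal.ofReal_mul hδ0.le, ← mul_add] at hle
  exact ⟨A.symm '' P, hPA, hsub', (ENNReal.mul_le_mul_iff_right hδE ENNReal.ofReal_ne_top).1 hle⟩

/-- the determinant of an involution -/
theorem abs_det_invol (L : (ℝ × ℝ) ≃ₗ[ℝ] (ℝ × ℝ)) (h : ∀ q, L (L q) = q) :
    |LinearMap.det (L : (ℝ × ℝ) →ₗ[ℝ] (ℝ × ℝ))| = 1 := by
  have h1 : (L : (ℝ × ℝ) →ₗ[ℝ] (ℝ × ℝ)) ∘ₗ (L : (ℝ × ℝ) →ₗ[ℝ] (ℝ × ℝ)) = LinearMap.id := by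
    apply LinearMap.ext
    intro q
    exact h q
  have h2 : LinearMap.det (L : (ℝ × ℝ) →ₗ[ℝ] (ℝ × ℝ)) *
      LinearMap.det (L : (ℝ × ℝ) →ₗ[ℝ] (ℝ × ℝ)) = 1 := by
    rw [← LinearMap.det_comp, h1, LinearMap.det_id]
  have h3 := abs_mul_abs_self (LinearMap.det (L : (ℝ × ℝ) →ₗ[ℝ] (ℝ × ℝ)))
  have h4 := abs_nonneg (LinearMap.det (L : (ℝ × ℝ) →ₗ[ℝ] (ℝ × ℝ)))
  rw [h2] at h3
  nlinarith

/-- `(x, y) ↦ (x, -y)` -/
noncomputable def LY : (ℝ × ℝ) ≃ₗ[ℝ] (ℝ × ℝ) :=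
  LinearEquiv.prodCongr (LinearEquiv.refl ℝ ℝ) (LinearEquiv.neg ℝ)

theorem LY_apply (q : ℝ × ℝ) : LY q = (q.1, -q.2) := rfl

/-- `(x, y) ↦ (-x, y)` -/
noncomputable def LX : (ℝ × ℝ) ≃ₗ[ℝ] (ℝ × ℝ) :=
  LinearEquiv.prodCongr (LinearEquiv.neg ℝ) (LinearEquiv.refl ℝ ℝ)

theorem LX_apply (q : ℝ × ℝ) : LX q = (-q.1, q.2) := rfl

theorem det_LY : |LinearMap.det (LY : (ℝ × ℝ) →ₗ[ℝ] (ℝ × ℝ))| = 1 := by
  apply abs_det_invol
  intro q
  rw [LY_apply, LY_apply]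
  simp

theorem det_LX : |LinearMap.det (LX : (ℝ × ℝ) →ₗ[ℝ] (ℝ × ℝ))| = 1 := by
  apply abs_det_invol
  intro q
  rw [LX_apply, LX_apply]
  simp

theorem flipY_eq (K : Set (ℝ × ℝ)) : flipY K = affE LY (0, 1) '' K := by
  unfold flipY
  apply image_congr
  intro q _
  rw [affE_apply, LY_apply]
  ext
  · simp
  · simp

theorem flipX_eq (K : Set (ℝ × ℝ)) : flipX K = affE LX (1, 0) '' K := by
  unfold flipX
  apply image_congr
  intro q _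
  rw [affE_apply, LX_apply]
  ext
  · simp
  · simp

theorem Cov_flipY {K : Set (ℝ × ℝ)} {V : ℝ} (h : Cov (flipY K) V) : Cov K V := by
  apply Cov_affE LY (0, 1)
  rw [det_LY, one_mul, ← flipY_eq]
  exact h

theorem Cov_flipX {K : Set (ℝ × ℝ)} {V : ℝ} (h : Cov (flipX K) V) : Cov K V := by
  apply Cov_affE LX (1, 0)
  rw [det_LX, one_mul, ← flipX_eq]
  exact h

theorem Cov_swap {K : Set (ℝ × ℝ)} {V : ℝ} (h : Cov (Prod.swap '' K) V) : Cov K V := by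
  have e : Prod.swap '' K = affE (LinearEquiv.prodComm ℝ ℝ ℝ) 0 '' K := by
    apply image_congr
    intro q _
    rw [affE_apply, sub_zero]
    rfl
  apply Cov_affE (LinearEquiv.prodComm ℝ ℝ ℝ) 0
  rw [abs_det_invol (LinearEquiv.prodComm ℝ ℝ ℝ) (fun q => rfl), one_mul, ← e]
  exact h

theorem volume_flipY (K : Set (ℝ × ℝ)) : volume (flipY K) = volume K := by
  rw [flipY_eq, volume_affE, det_LY, ENNReal.ofReal_one, one_mul]

theorem volume_flipX (K : Set (ℝ × ℝ)) : volume (flipX K) = volume K := by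
  rw [flipX_eq, volume_affE, det_LX, ENNReal.ofReal_one, one_mul]

theorem frame_flipY {K : Set (ℝ × ℝ)} {b c1 c2 r1 r2 l1 l2 : ℝ}
    (h : Frame K b c1 c2 r1 r2 l1 l2) : Frame (flipY K) (1 / 2 - b) c2 c1 r2 r1 l2 l1 where
  body := by
    rw [flipY_eq]
    exact body_image h.body _
  b0 := by linarith [h.b1]
  b1 := by linarith [h.b0]
  c10 := h.c20
  c11 := h.c21
  c20 := h.c10
  c21 := h.c11
  top := by
    rintro _ ⟨q, hq, rfl⟩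
    have := h.bot q hq
    show 1 - q.2 ≤ 1
    linarith
  bot := by
    rintro _ ⟨q, hq, rfl⟩
    have := h.top q hq
    show 0 ≤ 1 - q.2
    linarith
  mA := ⟨_, h.mB, by ext <;> simp; ring⟩
  mB := ⟨_, h.mA, by ext <;> simp; ring⟩
  mC := ⟨_, h.mD, by ext <;> simp; ring⟩
  mD := ⟨_, h.mC, by ext <;> simp; ring⟩
  mT := ⟨_, h.mU, by ext <;> simp⟩
  mU := ⟨_, h.mT, by ext <;> simp⟩
  R1 := by
    rintro _ ⟨q, hq, rfl⟩
    have := h.R2 q hq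
    show q.1 ≤ 1 + r2 * ((1 - q.2) - (1 / 2 - b))
    linarith
  R2 := by
    rintro _ ⟨q, hq, rfl⟩
    have := h.R1 q hq
    show q.1 ≤ 1 - r1 * ((1 - q.2) - (1 / 2 - b + 1 / 2))
    linarith
  L1 := by
    rintro _ ⟨q, hq, rfl⟩
    have := h.L2 q hq
    show -q.1 ≤ l2 * ((1 - q.2) - (1 / 2 - b))
    linarith
  L2 := by
    rintro _ ⟨q, hq, rfl⟩
    have := h.L1 q hq
    show -q.1 ≤ -l1 * ((1 - q.2) - (1 / 2 - b + 1 / 2))
    linarith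
  bal := by
    have := h.bal
    linarith

theorem frame_flipX {K : Set (ℝ × ℝ)} {b c1 c2 r1 r2 l1 l2 : ℝ}
    (h : Frame K b c1 c2 r1 r2 l1 l2) : Frame (flipX K) b (1 - c1) (1 - c2) l1 l2 r1 r2 where
  body := by
    rw [flipX_eq]
    exact body_image h.body _
  b0 := h.b0
  b1 := h.b1
  c10 := by linarith [h.c11]
  c11 := by linarith [h.c10]
  c20 := by linarith [h.c21]
  c21 := by linarith [h.c20]
  top := by
    rintro _ ⟨q, hq, rfl⟩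
    exact h.top q hq
  bot := by
    rintro _ ⟨q, hq, rfl⟩
    exact h.bot q hq
  mA := ⟨_, h.mD, by ext <;> simp⟩
  mB := ⟨_, h.mC, by ext <;> simp⟩
  mC := ⟨_, h.mB, by ext <;> simp⟩
  mD := ⟨_, h.mA, by ext <;> simp⟩
  mT := ⟨_, h.mT, by ext <;> simp⟩
  mU := ⟨_, h.mU, by ext <;> simp⟩
  R1 := by
    rintro _ ⟨q, hq, rfl⟩
    have := h.L1 q hq
    show 1 - q.1 ≤ 1 + l1 * (q.2 - b)
    linarith
  R2 := by
    rintro _ ⟨q, hq, rfl⟩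
    have := h.L2 q hq
    show 1 - q.1 ≤ 1 - l2 * (q.2 - (b + 1 / 2))
    linarith
  L1 := by
    rintro _ ⟨q, hq, rfl⟩
    have := h.R1 q hq
    show -(1 - q.1) ≤ r1 * (q.2 - b)
    linarith
  L2 := by
    rintro _ ⟨q, hq, rfl⟩
    have := h.R2 q hq
    show -(1 - q.1) ≤ -r2 * (q.2 - (b + 1 / 2))
    linarith
  bal := by
    have := h.bal
    linarith

end Pool.Agent.Helper83.PHU
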